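import Pool.Agent.TH539.CovS

/-!
Counting common points of two blocks of progressions.
-/

open Finset

namespace Pool.Agent.U912.ST

open Pool.Agent.H170R2.PC Pool.Agent.TH539.CovS

lemma ap_count (A : Finset ℤ) (t H : ℕ) (ht : 1 ≤ t)
    (h1 : ∀ x ∈ A, ∀ y ∈ A, (t : ℤ) ∣ x - y) (h2 : ∀ x ∈ A, ∀ y ∈ A, x - y ≤ H) :
    A.card ≤ H / t + 1 := by
  rcases A.eq_empty_or_nonempty with h0 | h0
  · subst h0; simp
  · set m := A.min' h0 with hm
    have hmA : m ∈ A := A.min'_mem h0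
    have ht' : (0 : ℤ) < t := by exact_mod_cast ht
    have key : A.card ≤ (range (H / t + 1)).card := by
      refine card_le_card_of_injOn (fun x => ((x - m) / t).toNat) ?_ ?_
      · intro x hx
        have hx' := mem_coe.mp hx
        have hle : m ≤ x := A.min'_le x hx'
        have h3 := h2 x hx' m hmA
        rw [mem_coe, mem_range]
        have h4 : (x - m) / t ≤ (H : ℤ) / t := Int.ediv_le_ediv ht' h3
        have h5 : 0 ≤ (x - m) / (t : ℤ) := Int.ediv_nonneg (by omega) ht'.le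
        have h6 : ((H / t : ℕ) : ℤ) = (H : ℤ) / t := Int.natCast_div _ _
        change ((x - m) / (t : ℤ)).toNat < H / t + 1
        have h7 : (((x - m) / (t : ℤ)).toNat : ℤ) = (x - m) / (t : ℤ) := Int.toNat_of_nonneg h5
        have h8 : (((x - m) / (t : ℤ)).toNat : ℤ) < ((H / t + 1 : ℕ) : ℤ) := by
          rw [h7, Nat.cast_add, h6]
          push_cast
          linarith
        exact_mod_cast h8
      · intro x hx y hy hxy
        have hx' := mem_coe.mp hx
        have hy' := mem_coe.mp hy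
        have hxy' : ((x - m) / (t : ℤ)).toNat = ((y - m) / (t : ℤ)).toNat := hxy
        have g1 : 0 ≤ (x - m) / (t : ℤ) :=
          Int.ediv_nonneg (by have := A.min'_le x hx'; omega) ht'.le
        have g2 : 0 ≤ (y - m) / (t : ℤ) :=
          Int.ediv_nonneg (by have := A.min'_le y hy'; omega) ht'.le
        have g3 : (x - m) / (t : ℤ) = (y - m) / (t : ℤ) := by
          rw [← Int.toNat_of_nonneg g1, ← Int.toNat_of_nonneg g2, hxy']
        have g4 := Int.ediv_mul_cancel (h1 x hx' m hmA)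
        have g5 := Int.ediv_mul_cancel (h1 y hy' m hmA)
        rw [g3] at g4
        have : x - m = y - m := g4.symm.trans g5
        omega
    rwa [card_range] at key

/-- the sum of `H/m + 1` over `1 ≤ m ≤ K` -/
def V (H K : ℕ) : ℕ := ∑ m ∈ Icc 1 K, (H / m + 1)

theorem pair_count {A B : Finset ℕ} {Y K H : ℕ} {c c' μ : ℤ} (hY : 1 ≤ Y) (hμ : μ ≠ 0)
    (hA : ∀ p ∈ A, Y ≤ p) (hAH : ∀ p ∈ A, ∀ q ∈ A, p ≤ q + H)
    (hBH : ∀ p ∈ B, ∀ q ∈ B, p ≤ q + H) (hcc : c ≠ c')
    (F : Finset (ℕ × ℕ × ℕ))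
    (hF : ∀ x ∈ F, x.1 ∈ A ∧ x.2.1 ∈ B ∧
      (∃ j : ℤ, μ * (x.2.2 : ℤ) = c + j * x.1 ∧ j ≠ 0 ∧ |j| ≤ K) ∧
      (∃ j : ℤ, μ * (x.2.2 : ℤ) = c' + j * x.2.1 ∧ j ≠ 0 ∧ |j| ≤ K)) :
    F.card ≤ (c' - c).natAbs.divisors.card * (2 * (4 * K * H / Y + 1) * V H K) := by
  classical
  rcases F.eq_empty_or_nonempty with h0 | ⟨x0, hx0⟩
  · subst h0; simp
  set P := x0.1 with hP
  set P' := x0.2.1 with hP'
  have hPA : P ∈ A := (hF x0 hx0).1
  have hPB : P' ∈ B := (hF x0 hx0).2.1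
  have hj : ∀ x : ℕ × ℕ × ℕ, ∃ j j' : ℤ, x ∈ F →
      (μ * (x.2.2 : ℤ) = c + j * x.1 ∧ j ≠ 0 ∧ |j| ≤ K ∧
      μ * (x.2.2 : ℤ) = c' + j' * x.2.1 ∧ j' ≠ 0 ∧ |j'| ≤ K) := by
    intro x
    by_cases hx : x ∈ F
    · obtain ⟨_, _, ⟨j, h1, h2, h3⟩, ⟨j', h4, h5, h6⟩⟩ := hF x hx
      exact ⟨j, j', fun _ => ⟨h1, h2, h3, h4, h5, h6⟩⟩
    · exact ⟨0, 0, fun h => absurd h hx⟩
  choose j j' hjj using hj
  set D := c' - c with hD
  have hDne : D ≠ 0 := sub_ne_zero.mpr (Ne.symm hcc)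
  have hDeq : ∀ x ∈ F, D = j x * x.1 - j' x * x.2.1 := by
    intro x hx
    obtain ⟨h1, _, _, h4, _, _⟩ := hjj x hx
    rw [hD]; linarith
  set T : Finset (Σ _ : ℕ, Σ _ : ℕ, Σ _ : ℤ, Σ _ : ℤ, ℕ) := D.natAbs.divisors.sigma fun g =>
    (Icc 1 K).sigma fun m => ({(m : ℤ), -(m : ℤ)} : Finset ℤ).sigma fun t =>
      ((Icc (-(K : ℤ)) K).filter fun s => |s * P - t * P' - D / g| ≤ 2 * K * H).sigma fun s =>
        A.filter fun p : ℕ => IsCoprime s t ∧ t ∣ s * p - D / g with hT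
  have hTcard : T.card ≤ D.natAbs.divisors.card * (2 * (4 * K * H / Y + 1) * V H K) := by
    rw [hT, card_sigma, ← smul_eq_mul]
    refine sum_le_card_nsmul _ _ _ fun g _ => ?_
    rw [card_sigma, V, mul_sum]
    refine sum_le_sum fun m hm => ?_
    have hm1 : 1 ≤ m := (mem_Icc.mp hm).1
    rw [card_sigma, mul_assoc]
    have hc2 : ({(m : ℤ), -(m : ℤ)} : Finset ℤ).card ≤ 2 := card_le_two
    refine le_trans ?_ (Nat.mul_le_mul_right _ hc2)
    rw [← smul_eq_mul]
    refine sum_le_card_nsmul _ _ _ fun t ht => ?_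
    have htm : t.natAbs = m := by
      rw [mem_insert, mem_singleton] at ht
      rcases ht with rfl | rfl <;> simp
    rw [card_sigma]
    have hS : ((Icc (-(K : ℤ)) K).filter fun s => |s * P - t * P' - D / g| ≤ 2 * K * H).card
        ≤ 4 * K * H / Y + 1 := by
      have := ap_count ((Icc (-(K : ℤ)) K).filter fun s => |s * P - t * P' - D / g| ≤ 2 * K * H)
        1 (4 * K * H / Y) le_rfl (fun x _ y _ => by simp) ?_
      · rwa [Nat.div_one] at this
      · intro x hx y hy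
        rw [mem_filter] at hx hy
        have h1 := abs_le.mp hx.2
        have h2 := abs_le.mp hy.2
        have h3 : (x - y) * P ≤ 4 * K * H := by nlinarith [h1.1, h1.2, h2.1, h2.2]
        rcases le_or_gt (x - y) 0 with h4 | h4
        · exact h4.trans (Nat.cast_nonneg _)
        · have h5 : (x - y) * Y ≤ 4 * K * H := by
            refine le_trans (mul_le_mul_of_nonneg_left ?_ h4.le) h3
            exact_mod_cast hA P hPA
          have h6 : ((4 * K * H / Y : ℕ) : ℤ) = (4 * K * H : ℤ) / Y := by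
            rw [Int.natCast_div]; push_cast; rfl
          rw [h6]
          exact Int.le_ediv_of_mul_le (by exact_mod_cast hY) h5
    refine le_trans ?_ (Nat.mul_le_mul_right _ hS)
    rw [← smul_eq_mul]
    refine sum_le_card_nsmul _ _ _ fun s _ => ?_
    have hcast : (A.filter fun p : ℕ => IsCoprime s t ∧ t ∣ s * p - D / g).card
        = ((A.filter fun p : ℕ => IsCoprime s t ∧ t ∣ s * p - D / g).image
          (Nat.cast : ℕ → ℤ)).card := (card_image_of_injective _ Nat.cast_injective).symm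
    rw [hcast]
    refine ap_count _ m H hm1 ?_ ?_
    · intro x hx y hy
      obtain ⟨p, hp, rfl⟩ := mem_image.mp hx
      obtain ⟨q, hq, rfl⟩ := mem_image.mp hy
      rw [mem_filter] at hp hq
      have h1 : t ∣ s * ((p : ℤ) - q) := by
        have := dvd_sub hp.2.2 hq.2.2
        have e : s * (p : ℤ) - D / g - (s * q - D / g) = s * ((p : ℤ) - q) := by ring
        rwa [e] at this
      have h2 : t ∣ (p : ℤ) - q := hp.2.1.symm.dvd_of_dvd_mul_left h1
      rw [← htm]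
      exact Int.natAbs_dvd.mpr h2
    · intro x hx y hy
      obtain ⟨p, hp, rfl⟩ := mem_image.mp hx
      obtain ⟨q, hq, rfl⟩ := mem_image.mp hy
      rw [mem_filter] at hp hq
      have := hAH p hp.1 q hq.1
      have h3 : (p : ℤ) ≤ q + H := by exact_mod_cast this
      linarith
  refine le_trans ?_ hTcard
  refine card_le_card_of_injOn (fun x => ⟨Int.gcd (j x) (j' x),
    (j' x / (Int.gcd (j x) (j' x) : ℤ)).natAbs, j' x / (Int.gcd (j x) (j' x) : ℤ),
    j x / (Int.gcd (j x) (j' x) : ℤ), x.1⟩) ?_ ?_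
  · intro x hx
    have hx' := mem_coe.mp hx
    obtain ⟨e1, e2, e3, e4, e5, e6⟩ := hjj x hx'
    have hDx := hDeq x hx'
    obtain ⟨hxA, hxB, _, _⟩ := hF x hx'
    set g := Int.gcd (j x) (j' x) with hg
    have hg0 : 0 < g := Int.gcd_pos_of_ne_zero_left _ e2
    have hgZ : (0 : ℤ) < g := by exact_mod_cast hg0
    have d1 : (g : ℤ) ∣ j x := Int.gcd_dvd_left _ _
    have d2 : (g : ℤ) ∣ j' x := Int.gcd_dvd_right _ _
    have f1 : j x / (g : ℤ) * g = j x := Int.ediv_mul_cancel d1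
    have f2 : j' x / (g : ℤ) * g = j' x := Int.ediv_mul_cancel d2
    set s := j x / (g : ℤ) with hs
    set t := j' x / (g : ℤ) with ht
    have hDg : D = (s * x.1 - t * x.2.1) * g := by
      rw [hDx]; linear_combination (-(x.1 : ℤ)) * f1 + (x.2.1 : ℤ) * f2
    have hDdiv : D / (g : ℤ) = s * x.1 - t * x.2.1 := by
      rw [hDg]; exact Int.mul_ediv_cancel _ hgZ.ne'
    have ht0 : t ≠ 0 := by
      intro h; rw [h, zero_mul] at f2; exact e5 f2.symm
    have hg1 : (1 : ℤ) ≤ g := hgZ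
    have hsK : |s| ≤ K := by
      refine le_trans ?_ e3
      rw [← f1, abs_mul, abs_of_pos hgZ]
      exact le_mul_of_one_le_right (abs_nonneg _) hg1
    have htK : |t| ≤ K := by
      refine le_trans ?_ e6
      rw [← f2, abs_mul, abs_of_pos hgZ]
      exact le_mul_of_one_le_right (abs_nonneg _) hg1
    rw [mem_coe, hT, mem_sigma, mem_sigma, mem_sigma, mem_sigma, mem_filter, mem_filter]
    refine ⟨?_, ?_, ?_, ⟨?_, ?_⟩, hxA, ?_, ?_⟩
    · rw [Nat.mem_divisors]
      refine ⟨?_, by simpa using hDne⟩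
      rw [← Int.natCast_dvd]
      exact ⟨s * x.1 - t * x.2.1, by rw [hDg]; ring⟩
    · rw [mem_Icc]
      refine ⟨Int.natAbs_pos.mpr ht0, ?_⟩
      have : ((t.natAbs : ℕ) : ℤ) ≤ K := by rw [Int.natCast_natAbs]; exact htK
      exact_mod_cast this
    · rw [mem_insert, mem_singleton]
      exact Int.natAbs_eq t
    · rw [mem_Icc]; exact abs_le.mp hsK
    · change |s * P - t * P' - D / (g : ℤ)| ≤ 2 * K * H
      rw [hDdiv]
      have e : s * (P : ℤ) - t * P' - (s * x.1 - t * x.2.1) = s * ((P : ℤ) - x.1) - t * ((P' : ℤ) - x.2.1) := by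
        ring
      rw [e]
      have a1 : |(P : ℤ) - x.1| ≤ H := by
        have u1 := hAH P hPA x.1 hxA
        have u2 := hAH x.1 hxA P hPA
        rw [abs_le]; constructor <;> omega
      have a2 : |(P' : ℤ) - x.2.1| ≤ H := by
        have u1 := hBH P' hPB x.2.1 hxB
        have u2 := hBH x.2.1 hxB P' hPB
        rw [abs_le]; constructor <;> omega
      have b1 : |s * ((P : ℤ) - x.1)| ≤ K * H := by
        rw [abs_mul]; exact mul_le_mul hsK a1 (abs_nonneg _) (Nat.cast_nonneg _)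
      have b2 : |t * ((P' : ℤ) - x.2.1)| ≤ K * H := by
        rw [abs_mul]; exact mul_le_mul htK a2 (abs_nonneg _) (Nat.cast_nonneg _)
      refine (abs_sub _ _).trans ?_
      linarith
    · rw [Int.isCoprime_iff_gcd_eq_one]
      exact Int.gcd_div_gcd_div_gcd hg0
    · change t ∣ s * (x.1 : ℤ) - D / (g : ℤ)
      rw [hDdiv]
      exact ⟨x.2.1, by ring⟩
  · intro x hx y hy hxy
    have hx' := mem_coe.mp hx
    have hy' := mem_coe.mp hy
    simp only [Sigma.mk.injEq, heq_eq_eq] at hxy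
    obtain ⟨h1, _, h3, h4, h5⟩ := hxy
    have hjx : j x = j y := by
      have u1 : j x / (Int.gcd (j x) (j' x) : ℤ) * (Int.gcd (j x) (j' x) : ℤ) = j x :=
        Int.ediv_mul_cancel (Int.gcd_dvd_left _ _)
      have u2 : j y / (Int.gcd (j y) (j' y) : ℤ) * (Int.gcd (j y) (j' y) : ℤ) = j y :=
        Int.ediv_mul_cancel (Int.gcd_dvd_left _ _)
      rw [← u1, ← u2, h4, h1]
    have hjx' : j' x = j' y := by
      have u1 : j' x / (Int.gcd (j x) (j' x) : ℤ) * (Int.gcd (j x) (j' x) : ℤ) = j' x :=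
        Int.ediv_mul_cancel (Int.gcd_dvd_right _ _)
      have u2 : j' y / (Int.gcd (j y) (j' y) : ℤ) * (Int.gcd (j y) (j' y) : ℤ) = j' y :=
        Int.ediv_mul_cancel (Int.gcd_dvd_right _ _)
      rw [← u1, ← u2, h3, h1]
    obtain ⟨e1, _, _, e4, e5, _⟩ := hjj x hx'
    obtain ⟨k1, _, _, k4, _, _⟩ := hjj y hy'
    have hn : (x.2.2 : ℤ) = y.2.2 := by
      have : μ * (x.2.2 : ℤ) = μ * (y.2.2 : ℤ) := by rw [e1, k1, hjx, h5]
      exact mul_left_cancel₀ hμ this
    have hq : (x.2.1 : ℤ) = y.2.1 := by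
      have : j' x * (x.2.1 : ℤ) = j' x * (y.2.1 : ℤ) := by
        rw [hjx'] at e4 ⊢
        rw [hn] at e4
        linarith
      exact mul_left_cancel₀ e5 this
    refine Prod.ext h5 (Prod.ext ?_ ?_)
    · exact_mod_cast hq
    · exact_mod_cast hn

end Pool.Agent.U912.ST
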