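import Pool.Agent.U912.ST1

/-!
The energy inequality for choices with few blocks.
-/

open Finset

namespace Pool.Agent.U912.ST

open Pool.Agent.H170R2.PC Pool.Agent.TH539.CovS

/-- the parameter of `n` on the progression of `p` -/
def jj (r s : ℕ → ℤ) (p n : ℕ) : ℤ := (s p * n - r p) / p

theorem step_core {D Q : Finset ℕ} {a : (p : ℕ) → ZMod p} {Y N c0 K H M d0 R : ℕ}
    (hQD : Q ⊆ D) (hD : ∀ p ∈ D, p.Prime ∧ Y ≤ p ∧ p ≤ 2 * Y) (hY : 1 ≤ Y) (r s : ℕ → ℤ)
    (w : ℕ → ℕ) (hw : ∀ p ∈ Q, w p < M) (hs : ∀ p ∈ Q, 1 ≤ s p ∧ s p ≤ R)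
    (hb : ∀ p ∈ Q, (s p : ZMod p) * a p = (r p : ZMod p))
    (hbw : ∀ p ∈ Q, ∀ q ∈ Q, w p = w q → r p = r q ∧ s p = s q ∧ p ≤ q + H)
    (hbN : ∀ p ∈ Q, |r p| ≤ 2 * N * s p) (hK : 3 * N * R ≤ K * Y) (hKY : K < Y) (hRY : R < Y)
    (hdiv : ∀ z : ℤ, z ≠ 0 → |z| ≤ 4 * N * R ^ 2 → z.natAbs.divisors.card ≤ d0)
    (hc : ∀ p ∈ D, c0 + 1 ≤ (Cl N a p).card) :
    (c0 * Q.card) ^ 2 ≤ (Cov D a N).card * (Q.card * (2 * K + 1) +
      M ^ 2 * (d0 * (2 * (4 * (R * K) * H / Y + 1) * V H (R * K)))) := by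
  classical
  set BB : ℕ → Finset ℕ := fun p => (Cl N a p).filter fun n : ℕ => s p * (n : ℤ) ≠ r p with hBB
  have hBsub : ∀ p, BB p ⊆ Cl N a p := fun p => filter_subset _ _
  have hBIcc : ∀ p, BB p ⊆ Icc 1 N := fun p n hn => by
    have := hBsub p hn
    rw [Cl, mem_filter] at this
    exact this.1
  have hmem : ∀ p ∈ Q, ∀ n ∈ BB p, s p * (n : ℤ) = r p + jj r s p n * p ∧ jj r s p n ≠ 0 ∧
      |jj r s p n| ≤ K := by
    intro p hp n hn
    have hCl := hBsub p hn
    have h0 : (p : ℤ) ∣ s p * n - r p := by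
      rw [Cl, mem_filter] at hCl
      rw [← ZMod.intCast_zmod_eq_zero_iff_dvd]
      push_cast
      rw [hCl.2, hb p hp, sub_self]
    have h1 : jj r s p n * p = s p * n - r p := Int.ediv_mul_cancel h0
    have h2 : s p * (n : ℤ) ≠ r p := (mem_filter.mp hn).2
    have hpY := (hD p (hQD hp)).2.1
    refine ⟨by rw [h1]; ring, ?_, ?_⟩
    · intro h3
      rw [h3, zero_mul] at h1
      exact h2 (by linarith)
    · obtain ⟨hs1, hs2⟩ := hs p hp
      have h4 : |jj r s p n * p| ≤ 3 * N * R := by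
        rw [h1]
        have h5 := abs_le.mp (hbN p hp)
        have h6 := mem_Icc.mp (hBIcc p hn)
        have h7 : s p * (n : ℤ) ≤ s p * N :=
          mul_le_mul_of_nonneg_left (by exact_mod_cast h6.2) (by linarith)
        have h8 : 0 ≤ s p * (n : ℤ) := mul_nonneg (by linarith) (Nat.cast_nonneg _)
        have h9 : (N : ℤ) * s p ≤ N * R := mul_le_mul_of_nonneg_left hs2 (Nat.cast_nonneg _)
        rw [abs_le]; constructor <;> nlinarith [h5.1, h5.2]
      rw [abs_mul, Nat.abs_cast] at h4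
      have h7 : (3 * N * R : ℤ) ≤ K * Y := by exact_mod_cast hK
      have h8 : (Y : ℤ) ≤ p := by exact_mod_cast hpY
      have hp0 : (0 : ℤ) < p := by omega
      by_contra hcon
      push Not at hcon
      have h9 : ((K : ℤ) + 1) * p ≤ |jj r s p n| * p :=
        mul_le_mul_of_nonneg_right (by omega) hp0.le
      have h10 : (K : ℤ) * Y ≤ K * p := mul_le_mul_of_nonneg_left h8 (Nat.cast_nonneg _)
      nlinarith
  have hBlow : ∀ p ∈ Q, c0 ≤ (BB p).card := by
    intro p hp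
    have h1 := hc p (hQD hp)
    have h2 := card_filter_add_card_filter_not (s := Cl N a p)
      (fun n : ℕ => s p * (n : ℤ) ≠ r p)
    have h3 : ((Cl N a p).filter fun n : ℕ => ¬ s p * (n : ℤ) ≠ r p).card ≤ 1 := by
      refine card_le_one.mpr fun x hx y hy => ?_
      rw [mem_filter, not_not] at hx hy
      have h4 : s p * (x : ℤ) = s p * y := hx.2.trans hy.2.symm
      have h5 : s p ≠ 0 := by have := (hs p hp).1; omega
      have := mul_left_cancel₀ h5 h4
      exact_mod_cast this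
    change c0 ≤ ((Cl N a p).filter fun n : ℕ => s p * (n : ℤ) ≠ r p).card
    omega
  have hBup : ∀ p ∈ Q, (BB p).card ≤ 2 * K + 1 := by
    intro p hp
    have h1 : (BB p).card ≤ (Icc (-(K : ℤ)) K).card := by
      refine card_le_card_of_injOn (fun n => jj r s p n) ?_ ?_
      · intro n hn
        rw [mem_coe, mem_Icc]
        exact abs_le.mp (hmem p hp n (mem_coe.mp hn)).2.2
      · intro x hx y hy hxy
        have h2 := (hmem p hp x (mem_coe.mp hx)).1
        have h3 := (hmem p hp y (mem_coe.mp hy)).1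
        have hxy' : jj r s p x = jj r s p y := hxy
        rw [hxy'] at h2
        have h4 : s p * (x : ℤ) = s p * y := h2.trans h3.symm
        have h5 : s p ≠ 0 := by have := (hs p hp).1; omega
        have := mul_left_cancel₀ h5 h4
        exact_mod_cast this
    refine h1.trans ?_
    rw [Int.card_Icc]
    omega
  set I := ∑ p ∈ Q, (BB p).card with hI
  have hIlow : c0 * Q.card ≤ I := by
    rw [hI, mul_comm, ← smul_eq_mul]
    exact card_nsmul_le_sum _ _ _ hBlow
  have hIup : I ≤ Q.card * (2 * K + 1) := by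
    rw [hI, ← smul_eq_mul]
    exact sum_le_card_nsmul _ _ _ hBup
  set W : Finset (ℕ × ℕ × ℕ) := (Q ×ˢ Q ×ˢ Icc 1 N).filter
    fun x => x.2.2 ∈ BB x.1 ∧ x.2.2 ∈ BB x.2.1 with hW
  set W1 := W.filter fun x => x.1 = x.2.1 with hW1
  set W2 := W.filter fun x => ¬ x.1 = x.2.1 with hW2
  have hWsplit : W.card = W1.card + W2.card := (card_filter_add_card_filter_not _).symm
  have hW1card : W1.card ≤ I := by
    have h1 : W1.card ≤ (Q.sigma fun p => BB p).card := by
      refine card_le_card_of_injOn (fun x => ⟨x.1, x.2.2⟩) ?_ ?_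
      · rintro ⟨p, q, n⟩ hx
        rw [mem_coe, hW1, mem_filter, hW, mem_filter, mem_product, mem_product] at hx
        obtain ⟨⟨⟨hp, hq, hn⟩, hnp, hnq⟩, hd⟩ := hx
        rw [mem_coe, mem_sigma]
        exact ⟨hp, hnp⟩
      · rintro ⟨p, q, n⟩ hx ⟨p', q', n'⟩ hx' hxy
        rw [mem_coe, hW1, mem_filter] at hx hx'
        have g1 : p = q := hx.2
        have g2 : p' = q' := hx'.2
        simp only [Sigma.mk.injEq, heq_eq_eq] at hxy
        obtain ⟨h1, h2⟩ := hxy
        subst h1 h2 g1 g2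
        rfl
    rwa [card_sigma] at h1
  -- different primes with a common point have different centres
  have hdiff : ∀ p ∈ Q, ∀ q ∈ Q, p ≠ q → ∀ n, n ∈ BB p → n ∈ BB q →
      s q * r p ≠ s p * r q := by
    intro p hp q hq hpq n hnp hnq heq
    obtain ⟨e1, e2, e3⟩ := hmem p hp n hnp
    obtain ⟨f1, f2, f3⟩ := hmem q hq n hnq
    have h1 : s q * jj r s p n * p = s p * jj r s q n * q := by
      linear_combination (-(s q)) * e1 + (s p) * f1 - heq
    have h2 : (p : ℤ) ∣ s p * jj r s q n * q := ⟨s q * jj r s p n, by rw [← h1]; ring⟩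
    have hpp := (hD p (hQD hp)).1
    have hqp := (hD q (hQD hq)).1
    have hcop : IsCoprime (p : ℤ) (q : ℤ) :=
      Nat.isCoprime_iff_coprime.mpr ((Nat.coprime_primes hpp hqp).mpr hpq)
    have h3 : (p : ℤ) ∣ s p * jj r s q n := hcop.dvd_of_dvd_mul_right h2
    have h5 := (hD p (hQD hp)).2.1
    rcases (Nat.prime_iff_prime_int.mp hpp).dvd_or_dvd h3 with h4 | h4
    · have h6 := hs p hp
      have h7 : (p : ℤ) ≤ s p := Int.le_of_dvd (by linarith [h6.1]) h4
      have h8 : (R : ℤ) < Y := by exact_mod_cast hRY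
      have h9 : (Y : ℤ) ≤ p := by exact_mod_cast h5
      linarith [h6.2]
    · have h6 : (p : ℤ) ≤ |jj r s q n| := Int.le_of_dvd (abs_pos.mpr f2) ((dvd_abs _ _).mpr h4)
      have h8 : (K : ℤ) < Y := by exact_mod_cast hKY
      have h9 : (Y : ℤ) ≤ p := by exact_mod_cast h5
      linarith
  set X := d0 * (2 * (4 * (R * K) * H / Y + 1) * V H (R * K)) with hX
  have hW2card : W2.card ≤ M ^ 2 * X := by
    have hmaps : ∀ x ∈ W2, (w x.1, w x.2.1) ∈ range M ×ˢ range M := by
      rintro ⟨p, q, n⟩ hx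
      rw [hW2, mem_filter, hW, mem_filter, mem_product, mem_product] at hx
      rw [mem_product, mem_range, mem_range]
      exact ⟨hw p hx.1.1.1, hw q hx.1.1.2.1⟩
    rw [card_eq_sum_card_fiberwise hmaps]
    have hcM : (range M ×ˢ range M).card = M ^ 2 := by
      rw [card_product, card_range, sq]
    rw [← hcM, ← smul_eq_mul]
    refine sum_le_card_nsmul _ _ _ fun y _ => ?_
    rcases (W2.filter fun x => (w x.1, w x.2.1) = y).eq_empty_or_nonempty with h0 | ⟨x0, hx0⟩
    · rw [h0]; simp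
    · have hall : ∀ x ∈ W2.filter (fun x => (w x.1, w x.2.1) = y), x.1 ∈ Q ∧ x.2.1 ∈ Q ∧
          x.2.2 ∈ BB x.1 ∧ x.2.2 ∈ BB x.2.1 ∧ x.1 ≠ x.2.1 ∧ w x.1 = y.1 ∧ w x.2.1 = y.2 := by
        intro x hx
        rw [mem_filter, hW2, mem_filter, hW, mem_filter, mem_product, mem_product] at hx
        obtain ⟨⟨⟨⟨hp, hq, _⟩, hnp, hnq⟩, hd⟩, hy⟩ := hx
        exact ⟨hp, hq, hnp, hnq, hd, congrArg Prod.fst hy, congrArg Prod.snd hy⟩
      obtain ⟨g1, g2, g3, g4, g5, g6, g7⟩ := hall x0 hx0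
      have hcc : s x0.2.1 * r x0.1 ≠ s x0.1 * r x0.2.1 := hdiff _ g1 _ g2 g5 _ g3 g4
      obtain ⟨sp1, sp2⟩ := hs _ g1
      obtain ⟨sq1, sq2⟩ := hs _ g2
      have hμ : s x0.1 * s x0.2.1 ≠ 0 := by
        have : 0 < s x0.1 * s x0.2.1 := mul_pos (by linarith) (by linarith)
        exact this.ne'
      have hp := pair_count (A := Q.filter fun p => w p = y.1) (B := Q.filter fun p => w p = y.2)
        (Y := Y) (K := R * K) (H := H) (c := s x0.2.1 * r x0.1) (c' := s x0.1 * r x0.2.1)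
        (μ := s x0.1 * s x0.2.1) hY hμ ?_ ?_ ?_ hcc
        (W2.filter fun x => (w x.1, w x.2.1) = y) ?_
      · refine hp.trans ?_
        rw [hX]
        refine Nat.mul_le_mul_right _ (hdiv _ (sub_ne_zero.mpr hcc.symm) ?_)
        have hR2 : ∀ p ∈ Q, ∀ q ∈ Q, |s p * r q| ≤ 2 * N * R ^ 2 := by
          intro p hp q hq
          have u1 := hbN q hq
          obtain ⟨v1, v2⟩ := hs p hp
          obtain ⟨v3, v4⟩ := hs q hq
          rw [abs_mul, abs_of_nonneg (by linarith : 0 ≤ s p)]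
          have u2 : |r q| ≤ 2 * N * R := u1.trans (mul_le_mul_of_nonneg_left v4 (by positivity))
          calc s p * |r q| ≤ R * (2 * N * R) := mul_le_mul v2 u2 (abs_nonneg _) (Nat.cast_nonneg _)
            _ = _ := by ring
        have u1 := abs_le.mp (hR2 _ g1 _ g2)
        have u2 := abs_le.mp (hR2 _ g2 _ g1)
        rw [abs_le]; constructor <;> linarith [u1.1, u1.2, u2.1, u2.2]
      · intro p hp
        exact (hD p (hQD (mem_filter.mp hp).1)).2.1
      · intro p hp q hq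
        rw [mem_filter] at hp hq
        exact (hbw p hp.1 q hq.1 (hp.2.trans hq.2.symm)).2.2
      · intro p hp q hq
        rw [mem_filter] at hp hq
        exact (hbw p hp.1 q hq.1 (hp.2.trans hq.2.symm)).2.2
      · intro x hx
        obtain ⟨k1, k2, k3, k4, k5, k6, k7⟩ := hall x hx
        obtain ⟨l1, l2, _⟩ := hbw _ k1 _ g1 (k6.trans g6.symm)
        obtain ⟨l3, l4, _⟩ := hbw _ k2 _ g2 (k7.trans g7.symm)
        obtain ⟨m1, m2, m3⟩ := hmem _ k1 _ k3
        obtain ⟨m4, m5, m6⟩ := hmem _ k2 _ k4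
        rw [l1, l2] at m1
        rw [l3, l4] at m4
        refine ⟨mem_filter.mpr ⟨k1, k6⟩, mem_filter.mpr ⟨k2, k7⟩,
          ⟨s x0.2.1 * jj r s x.1 x.2.2, ?_, ?_, ?_⟩, ⟨s x0.1 * jj r s x.2.1 x.2.2, ?_, ?_, ?_⟩⟩
        · linear_combination (s x0.2.1) * m1
        · exact mul_ne_zero (by omega) m2
        · rw [abs_mul, abs_of_nonneg (by linarith : 0 ≤ s x0.2.1)]
          push_cast
          exact mul_le_mul sq2 m3 (abs_nonneg _) (Nat.cast_nonneg _)
        · linear_combination (s x0.1) * m4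
        · exact mul_ne_zero (by omega) m5
        · rw [abs_mul, abs_of_nonneg (by linarith : 0 ≤ s x0.1)]
          push_cast
          exact mul_le_mul sp2 m6 (abs_nonneg _) (Nat.cast_nonneg _)
  have hWcard : W.card ≤ Q.card * (2 * K + 1) + M ^ 2 * X := by
    rw [hWsplit]
    exact Nat.add_le_add (hW1card.trans hIup) hW2card
  -- Cauchy-Schwarz
  set d : ℕ → ℕ := fun n => (Q.filter fun p => n ∈ BB p).card with hd
  have hsum1 : ∑ n ∈ Icc 1 N, d n = I := by
    simp only [hd, card_filter]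
    rw [sum_comm, hI]
    refine sum_congr rfl fun p _ => ?_
    rw [← card_filter]
    congr 1
    ext n
    rw [mem_filter]
    exact ⟨fun h => h.2, fun h => ⟨hBIcc p h, h⟩⟩
  have hsum2 : ∑ n ∈ Icc 1 N, d n ^ 2 = W.card := by
    rw [hW, card_filter, sum_product, ]
    simp only [sum_product]
    have : ∀ n, d n ^ 2 = ∑ p ∈ Q, ∑ q ∈ Q, if n ∈ BB p ∧ n ∈ BB q then 1 else 0 := by
      intro n
      simp only [hd, card_filter, sq, sum_mul_sum]
      refine sum_congr rfl fun p _ => sum_congr rfl fun q _ => ?_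
      by_cases h1 : n ∈ BB p <;> by_cases h2 : n ∈ BB q <;> simp [h1, h2]
    simp only [this]
    rw [sum_comm]
    refine sum_congr rfl fun p _ => ?_
    rw [sum_comm]
  have hd0 : ∀ n ∈ Icc 1 N, n ∉ Cov D a N → d n = 0 := by
    intro n hn hC
    have h0 := Dn_eq_empty hn hC
    rw [hd, card_eq_zero, filter_eq_empty_iff]
    intro p hp hnp
    have h1 := hBsub p hnp
    rw [Cl, mem_filter] at h1
    have : p ∈ Dn D a n := by
      rw [Dn, mem_filter]
      exact ⟨hQD hp, h1.2⟩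
    rw [h0] at this
    simp at this
  have hCovIcc : Cov D a N ⊆ Icc 1 N := filter_subset _ _
  have hs1 : ∑ n ∈ Cov D a N, d n = I := by
    rw [← hsum1]
    exact sum_subset hCovIcc fun n hn hC => hd0 n hn hC
  have hs2 : ∑ n ∈ Cov D a N, d n ^ 2 ≤ W.card := by
    rw [← hsum2]
    exact sum_le_sum_of_subset hCovIcc
  have hcs : I ^ 2 ≤ (Cov D a N).card * W.card := by
    have h1 := sq_sum_le_card_mul_sum_sq (s := Cov D a N) (f := fun n => (d n : ℝ))
    have h2 : ((I ^ 2 : ℕ) : ℝ) ≤ (((Cov D a N).card * W.card : ℕ) : ℝ) := by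
      push_cast
      calc (I : ℝ) ^ 2 = (∑ n ∈ Cov D a N, (d n : ℝ)) ^ 2 := by rw [← hs1]; push_cast; rfl
        _ ≤ (Cov D a N).card * ∑ n ∈ Cov D a N, (d n : ℝ) ^ 2 := h1
        _ ≤ (Cov D a N).card * (W.card : ℝ) := by
          gcongr
          exact_mod_cast hs2
    exact_mod_cast h2
  calc (c0 * Q.card) ^ 2 ≤ I ^ 2 := Nat.pow_le_pow_left hIlow 2
    _ ≤ (Cov D a N).card * W.card := hcs
    _ ≤ _ := Nat.mul_le_mul_left _ hWcard

end Pool.Agent.U912.ST
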