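import Pool.Agent.U912.ST2
import Pool.Agent.H510R2.Div

/-!
Blocks of a step function, and the real form of the bound.
-/

open Finset Filter Topology

namespace Pool.Agent.U912.ST

open Pool.Agent.H170R2.PC

lemma V_le (H K : ℕ) : (V H K : ℝ) ≤ H * (1 + Real.log K) + K := by
  have h1 : (V H K : ℝ) ≤ ∑ m ∈ Icc 1 K, ((H : ℝ) * (m : ℝ)⁻¹ + 1) := by
    rw [V]; push_cast
    refine sum_le_sum fun m _ => ?_
    have : ((H / m : ℕ) : ℝ) ≤ (H : ℝ) / m := Nat.cast_div_le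
    rw [div_eq_mul_inv] at this
    linarith
  have h2 : ∑ m ∈ Icc 1 K, ((H : ℝ) * (m : ℝ)⁻¹ + 1) = H * (harmonic K : ℝ) + K := by
    rw [sum_add_distrib, ← mul_sum, harmonic_eq_sum_Icc]
    push_cast
    simp
  have h3 := harmonic_le_one_add_log K
  rw [h2] at h1
  have : (H : ℝ) * (harmonic K : ℝ) ≤ H * (1 + Real.log K) :=
    mul_le_mul_of_nonneg_left h3 (Nat.cast_nonneg _)
  linarith

lemma index_aux {α : ℝ} {N H : ℕ} {r s : ℕ → ℤ} (hH : 1 ≤ H) (J : Finset ℕ)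
    (hJ : ∀ m : ℕ, m ∈ J ↔ ((N : ℝ) ^ α ≤ (m : ℝ) ∧ (m : ℝ) < 2 * (N : ℝ) ^ α ∧
      (r (m + 1), s (m + 1)) ≠ (r m, s m)))
    {p q : ℕ} (hp : (N : ℝ) ^ α ≤ p) (hq2 : (q : ℝ) < 2 * (N : ℝ) ^ α)
    (hw : (J.filter (· < p)).card + p / H = (J.filter (· < q)).card + q / H) (hpq : p ≤ q) :
    (r q, s q) = (r p, s p) ∧ q ≤ p + H := by
  have h1 : J.filter (· < p) ⊆ J.filter (· < q) := by
    intro m hm
    rw [mem_filter] at hm ⊢
    exact ⟨hm.1, lt_of_lt_of_le hm.2 hpq⟩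
  have h2 := card_le_card h1
  have h3 : p / H ≤ q / H := Nat.div_le_div_right hpq
  have h4 : (J.filter (· < q)).card ≤ (J.filter (· < p)).card := by omega
  have h5 : p / H = q / H := by omega
  have h6 : J.filter (· < p) = J.filter (· < q) := eq_of_subset_of_card_le h1 h4
  constructor
  · have key : ∀ m, p ≤ m → m ≤ q → (r m, s m) = (r p, s p) := by
      intro m hm
      induction m, hm using Nat.le_induction with
      | base => intro _; rfl
      | succ m hm ih =>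
        intro hmq
        by_contra hne
        have hm' := ih (by omega)
        have hmJ : m ∈ J := by
          rw [hJ]
          refine ⟨hp.trans (by exact_mod_cast hm), ?_, ?_⟩
          · have : (m : ℝ) < q := by exact_mod_cast (by omega : m < q)
            linarith
          · rw [hm']; exact hne
        have hmf : m ∈ J.filter (· < q) := mem_filter.mpr ⟨hmJ, by omega⟩
        rw [← h6, mem_filter] at hmf
        omega
    exact key q hpq le_rfl
  · have e1 := Nat.div_add_mod q H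
    have e2 := Nat.mod_lt q hH
    have e3 := Nat.mul_div_le p H
    rw [← h5] at e1
    omega

lemma index_lemma {α : ℝ} {N H : ℕ} {r s : ℕ → ℤ} (hH : 1 ≤ H) (J : Finset ℕ)
    (hJ : ∀ m : ℕ, m ∈ J ↔ ((N : ℝ) ^ α ≤ (m : ℝ) ∧ (m : ℝ) < 2 * (N : ℝ) ^ α ∧
      (r (m + 1), s (m + 1)) ≠ (r m, s m)))
    {p q : ℕ} (hp : (N : ℝ) ^ α ≤ p) (hp2 : (p : ℝ) < 2 * (N : ℝ) ^ α)
    (hq : (N : ℝ) ^ α ≤ q) (hq2 : (q : ℝ) < 2 * (N : ℝ) ^ α)
    (hw : (J.filter (· < p)).card + p / H = (J.filter (· < q)).card + q / H) :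
    r p = r q ∧ s p = s q ∧ p ≤ q + H := by
  rcases le_total p q with h | h
  · obtain ⟨h1, h2⟩ := index_aux hH J hJ hp hq2 hw h
    exact ⟨(congrArg Prod.fst h1).symm, (congrArg Prod.snd h1).symm, by omega⟩
  · obtain ⟨h1, h2⟩ := index_aux hH J hJ hq hp2 hw.symm h
    exact ⟨congrArg Prod.fst h1, congrArg Prod.snd h1, h2⟩

/-- the real form of the upper bound for the number of pairs -/
lemma real_bound {N y κ u h v T1 T2 Λ d0 K M H L Vv q R : ℝ} (hyκ : y * κ = N) (huh : u * h = y)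
    (hκ : 1 ≤ κ) (hu : 1 ≤ u) (hv : 1 ≤ v) (hy : 1 ≤ y)
    (hT1 : 1 ≤ T1) (hT2 : 1 ≤ T2) (huT : u ≤ κ * T1) (hκu : κ * u ≤ y * T2) (hΛ : 1 ≤ Λ)
    (hd0 : 0 ≤ d0) (hK0 : 0 ≤ K) (hK : K ≤ 4 * κ * v) (hM0 : 0 ≤ M) (hM : M ≤ 6 * u)
    (hR : R ≤ v) (hH0 : 0 ≤ H) (hH : H ≤ 2 * h) (hL0 : 0 ≤ L)
    (hL : L * y ≤ 4 * (R * K) * H) (hV0 : 0 ≤ Vv) (hV : Vv ≤ (H + R * K) * Λ)
    (hq : q ≤ 3 * y) :
    q * (2 * K + 1) + M ^ 2 * (d0 * (2 * (L + 1) * Vv))
      ≤ (27 + 14256 * (d0 * Λ)) * (v ^ 4 * (N * (T1 * T2))) := by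
  have hh0 : 0 < h := by
    by_contra hcon
    push Not at hcon
    have : u * h ≤ 0 := mul_nonpos_of_nonneg_of_nonpos (by linarith) hcon
    linarith
  have hRK : R * K ≤ 4 * κ * v ^ 2 := by
    calc R * K ≤ v * (4 * κ * v) := mul_le_mul hR hK hK0 (by linarith)
      _ = _ := by ring
  have hv2 : 1 ≤ v ^ 2 := one_le_pow₀ hv
  -- u (L + 1)
  have h1 : u * (L + 1) ≤ 33 * v ^ 2 * (κ * T1) := by
    have e1 : L * y ≤ 4 * (4 * κ * v ^ 2) * (2 * h) := by
      refine hL.trans ?_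
      gcongr
    have e2 : u * L ≤ 32 * κ * v ^ 2 := by
      have e3 : (u * L) * h ≤ (32 * κ * v ^ 2) * h := by
        calc (u * L) * h = L * (u * h) := by ring
          _ = L * y := by rw [huh]
          _ ≤ 4 * (4 * κ * v ^ 2) * (2 * h) := e1
          _ = _ := by ring
      exact le_of_mul_le_mul_right e3 hh0
    have e4 : κ ≤ κ * T1 := le_mul_of_one_le_right (by linarith) hT1
    have e5 : 32 * κ * v ^ 2 ≤ 32 * v ^ 2 * (κ * T1) := by
      calc 32 * κ * v ^ 2 = 32 * v ^ 2 * κ := by ring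
        _ ≤ 32 * v ^ 2 * (κ * T1) := by gcongr
    have e6 : u ≤ v ^ 2 * (κ * T1) := by
      refine huT.trans ?_
      exact le_mul_of_one_le_left (by positivity) hv2
    calc u * (L + 1) = u * L + u := by ring
      _ ≤ 32 * v ^ 2 * (κ * T1) + v ^ 2 * (κ * T1) := by linarith
      _ = _ := by ring
  have h2 : u * Vv ≤ 6 * v ^ 2 * (y * T2) * Λ := by
    have e1 : u * (H + R * K) ≤ 6 * v ^ 2 * (y * T2) := by
      have e2 : u * H ≤ 2 * y := by
        calc u * H ≤ u * (2 * h) := by gcongr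
          _ = 2 * (u * h) := by ring
          _ = 2 * y := by rw [huh]
      have e3 : 2 * y ≤ 2 * v ^ 2 * (y * T2) := by
        have : y ≤ y * T2 := le_mul_of_one_le_right (by linarith) hT2
        have : y * T2 ≤ v ^ 2 * (y * T2) := le_mul_of_one_le_left (by positivity) hv2
        linarith
      have e4 : u * (R * K) ≤ 4 * v ^ 2 * (y * T2) := by
        calc u * (R * K) ≤ u * (4 * κ * v ^ 2) := by gcongr
          _ = 4 * v ^ 2 * (κ * u) := by ring
          _ ≤ 4 * v ^ 2 * (y * T2) := by gcongr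
      calc u * (H + R * K) = u * H + u * (R * K) := by ring
        _ ≤ 2 * v ^ 2 * (y * T2) + 4 * v ^ 2 * (y * T2) := by linarith
        _ = _ := by ring
    calc u * Vv ≤ u * ((H + R * K) * Λ) := by gcongr
      _ = u * (H + R * K) * Λ := by ring
      _ ≤ _ := by gcongr
  have h3 : q * (2 * K + 1) ≤ 27 * (v ^ 4 * (N * (T1 * T2))) := by
    have e0 : 1 ≤ κ * v := one_le_mul_of_one_le_of_one_le hκ hv
    have e1 : 2 * K + 1 ≤ 9 * (κ * v) := by linarith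
    have e2 : q * (2 * K + 1) ≤ (3 * y) * (9 * (κ * v)) := by gcongr
    have e3 : (3 * y) * (9 * (κ * v)) = 27 * (v * (y * κ)) := by ring
    have e4 : v ≤ v ^ 4 := le_self_pow₀ hv (by norm_num)
    have hN0 : 0 ≤ N := by rw [← hyκ]; positivity
    have e5 : N ≤ N * (T1 * T2) :=
      le_mul_of_one_le_right hN0 (one_le_mul_of_one_le_of_one_le hT1 hT2)
    rw [e3, hyκ] at e2
    refine e2.trans ?_
    gcongr
  have h4 : M ^ 2 * (d0 * (2 * (L + 1) * Vv)) ≤ 14256 * (d0 * Λ) * (v ^ 4 * (N * (T1 * T2))) := by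
    calc M ^ 2 * (d0 * (2 * (L + 1) * Vv)) ≤ (6 * u) ^ 2 * (d0 * (2 * (L + 1) * Vv)) := by gcongr
      _ = 72 * d0 * ((u * (L + 1)) * (u * Vv)) := by ring
      _ ≤ 72 * d0 * ((33 * v ^ 2 * (κ * T1)) * (6 * v ^ 2 * (y * T2) * Λ)) := by gcongr
      _ = 14256 * (d0 * Λ) * (v ^ 4 * ((y * κ) * (T1 * T2))) := by ring
      _ = _ := by rw [hyκ]
  calc _ ≤ 27 * (v ^ 4 * (N * (T1 * T2))) + 14256 * (d0 * Λ) * (v ^ 4 * (N * (T1 * T2))) :=
        add_le_add h3 h4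
    _ = _ := by ring

end Pool.Agent.U912.ST
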